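import Pool.Agent.U500.SqMain

set_option autoImplicit false

open Topology Filter Asymptotics Set
open scoped ENNReal NNReal ContDiff

/-!
# A finite type point with a tangential sequence along which the squeezing function tends to `1`

For every `n ≥ 2` let `D ⊂ ℂⁿ` be the egg domain `|x₀|² + |x₁|⁴ + |x₂|² + … < 1` and
`p = (1, 0, …, 0)`.  `D` is bounded and convex, has a real analytic boundary, all of whose points
have D'Angelo type at most `4`, and the Levi form at `p` has `n - 2` positive eigenvalues and one
eigenvalue `0`; so `(D, p)` is admissible in the sense of (C), (B) and, for `n = 2`, of (A), and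
`p` is not a strongly pseudoconvex point.  There is a sequence in `D` converging to `p` along which
the squeezing function tends to `1`.

Proof.  Because `1 - |w|⁴ ≤ 4 Re (1 - w)` for `|w| ≤ 1`, `D` is contained in the domain
`|x₀|² + |x₂|² + … < 4 Re (1 - x₁)`, which the Cayley map sends onto the unit ball; the Cayley map
can be chosen to send `(0, 1 - δ, 0, …)` to `0`, and then its image contains the ball of radius `r`
as soon as `28 δ ≤ (1 - r)³`.  So the squeezing function at `(0, 1 - δ, 0, …)` tends to `1`.  The
automorphisms of `D` which act on the first coordinate by hyperbolic translations move the points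
`(0, 1 - δ, 0, …)` to `(a, (1 - a²)^{1/4} (1 - δ), 0, …)`, which tends to `p` when `a → 1`.
-/

namespace Pool.Agent.Results.MP_63facb_an.TangentialSequence

open Pool.Agent.R233 Pool.Agent.U500.Sq

/-- **Answer to Q1 (yes).** For every `n ≥ 2` there are a bounded convex pseudoconvex domain
`D ⊂ ℂⁿ` with `C^∞` boundary, all of whose boundary points have D'Angelo type at most `4`, and a
point `p ∈ ∂D` such that the Levi form of `∂D` is everywhere `≥ 0` (Levi pseudoconvexity), the Levi
form at `p` is positive definite on a complex subspace of dimension at least `n - 2` of the complex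
tangent space (so `(D, p)` satisfies (B) and (C), and (A) if `n = 2`), `p` is not strongly
pseudoconvex, and there is a sequence in `D` converging to `p` along which the squeezing function
of `D` tends to `1`. -/
theorem result (n : ℕ) (hn : 2 ≤ n) :
    ∃ (D : Set (Fin n → ℂ)) (p : Fin n → ℂ),
      IsFiniteTypeDomain D ∧ Convex ℝ D ∧ p ∈ frontier D ∧
      (∃ ρ : (Fin n → ℂ) → ℝ, IsDefiningFunction D ρ ∧ (∀ q ∈ frontier D, dAngeloType ρ q ≤ 4) ∧
        (∀ z v : Fin n → ℂ, 0 ≤ leviForm ρ z v) ∧
        ∃ W : Submodule ℂ (Fin n → ℂ), n - 2 ≤ Module.finrank ℂ W ∧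
          ∀ v ∈ W, IsComplexTangent ρ p v ∧ (v ≠ 0 → 0 < leviForm ρ p v)) ∧
      ¬ StronglyPseudoconvexAt D p ∧
      ∃ z : ℕ → (Fin n → ℂ), (∀ k, z k ∈ D) ∧ Tendsto z atTop (𝓝 p) ∧
        Tendsto (fun k => squeezing D (z k)) atTop (𝓝 1) :=
  Pool.Agent.U500.Egg.main_result n hn

end Pool.Agent.Results.MP_63facb_an.TangentialSequence
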